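import Pool.Agent.U737.MN.Stm
import Pool.Agent.TH228.J3101

/-!
# Few extensions with group `H` on `X`
-/

set_option autoImplicit false

open NumberField Filter Topology Pool.Agent.TH444.ML

namespace Pool.Agent.U875.MN

open Pool.Agent.TH228.J3101 (nf dsc_eq one_le)

section
variable {K Ω : Type} [Field K] [NumberField K] [Field Ω] [Algebra K Ω]

/-- composition with `σ` -/
def cmp (M : IntermediateField K Ω) (σ : Ω ≃ₐ[K] Ω) : (M →ₐ[K] Ω) ≃ (M →ₐ[K] Ω) where
  toFun φ := σ.toAlgHom.comp φ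
  invFun φ := σ.symm.toAlgHom.comp φ
  left_inv φ := by ext x; simp
  right_inv φ := by ext x; simp

omit [NumberField K] in
lemma act_exists {H X : Type} [Group H] [MulAction H X] {M : IntermediateField K Ω}
    (e : (M →ₐ[K] Ω) ≃ X)
    (he : ∀ π : Equiv.Perm X, (∃ h : H, ∀ x, π x = h • x) ↔
      ∃ σ : Ω ≃ₐ[K] Ω, ∀ φ : M →ₐ[K] Ω, e (σ.toAlgHom.comp φ) = π (e φ))
    (σ : Ω ≃ₐ[K] Ω) : ∃ h : H, ∀ φ : M →ₐ[K] Ω, e (σ.toAlgHom.comp φ) = h • e φ := by
  obtain ⟨h, hh⟩ := (he ((e.symm.trans (cmp M σ)).trans e)).2 ⟨σ, fun φ => by simp [cmp]⟩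
  exact ⟨h, fun φ => by rw [← hh (e φ)]; simp [cmp]⟩

omit [NumberField K] in
lemma act_surj {H X : Type} [Group H] [MulAction H X] {M : IntermediateField K Ω}
    (e : (M →ₐ[K] Ω) ≃ X)
    (he : ∀ π : Equiv.Perm X, (∃ h : H, ∀ x, π x = h • x) ↔
      ∃ σ : Ω ≃ₐ[K] Ω, ∀ φ : M →ₐ[K] Ω, e (σ.toAlgHom.comp φ) = π (e φ))
    (h : H) : ∃ σ : Ω ≃ₐ[K] Ω, ∀ φ : M →ₐ[K] Ω, e (σ.toAlgHom.comp φ) = h • e φ := by
  obtain ⟨σ, hσ⟩ := (he (MulAction.toPerm h)).1 ⟨h, fun x => rfl⟩
  exact ⟨σ, fun φ => hσ φ⟩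

omit [NumberField K] in
lemma eq_on {M : IntermediateField K Ω} {σ σ' : Ω ≃ₐ[K] Ω}
    (h : ∀ φ : M →ₐ[K] Ω, σ.toAlgHom.comp φ = σ'.toAlgHom.comp φ) :
    ∀ x ∈ IntermediateField.normalClosure K M Ω, σ x = σ' x := by
  have key : IntermediateField.normalClosure K M Ω ≤
      IntermediateField.fixedField (Subgroup.zpowers (σ'⁻¹ * σ)) := by
    rw [IntermediateField.normalClosure]
    refine iSup_le fun φ => ?_
    rw [IntermediateField.le_iff_le, Subgroup.zpowers_le]
    rw [IntermediateField.mem_fixingSubgroup_iff]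
    rintro _ ⟨x, rfl⟩
    have h1 := DFunLike.congr_fun (h φ) x
    change σ'⁻¹ (σ (φ x)) = φ x
    have h2 : σ (φ x) = σ' (φ x) := h1
    rw [h2]
    exact σ'.symm_apply_apply _
  intro x hx
  have h1 := key hx
  rw [IntermediateField.mem_fixedField_iff] at h1
  have h2 := h1 _ (Subgroup.mem_zpowers _)
  have h3 : σ' (σ'⁻¹ (σ x)) = σ' x := by
    have h4 : σ'⁻¹ (σ x) = x := h2
    rw [h4]
  rw [← h3]
  exact (σ'.apply_symm_apply _).symm

omit [NumberField K] in
lemma of_eq_on {M : IntermediateField K Ω} {σ σ' : Ω ≃ₐ[K] Ω}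
    (h : ∀ x ∈ IntermediateField.normalClosure K M Ω, σ x = σ' x) (φ : M →ₐ[K] Ω) :
    σ.toAlgHom.comp φ = σ'.toAlgHom.comp φ := by
  ext x
  exact h _ (φ.fieldRange_le_normalClosure ⟨x, rfl⟩)

omit [NumberField K] in
lemma group_iso {H X : Type} [Group H] [MulAction H X] [IsAlgClosure K Ω]
    {M : IntermediateField K Ω} [FiniteDimensional K M]
    (e : (M →ₐ[K] Ω) ≃ X)
    (he : ∀ π : Equiv.Perm X, (∃ h : H, ∀ x, π x = h • x) ↔
      ∃ σ : Ω ≃ₐ[K] Ω, ∀ φ : M →ₐ[K] Ω, e (σ.toAlgHom.comp φ) = π (e φ))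
    (hfaith : ∀ h : H, (∀ x : X, h • x = x) → h = 1) :
    ∃ E : (IntermediateField.normalClosure K M Ω ≃ₐ[K] IntermediateField.normalClosure K M Ω) ≃* H,
      ∀ (σ : Ω ≃ₐ[K] Ω) (τ : IntermediateField.normalClosure K M Ω ≃ₐ[K]
        IntermediateField.normalClosure K M Ω),
        (∀ x : IntermediateField.normalClosure K M Ω, σ (x : Ω) = τ x) → ∀ (φ : M →ₐ[K] Ω), e (σ.toAlgHom.comp φ) = E τ • e φ := by
  set N := IntermediateField.normalClosure K M Ω with hN
  have hac : IsAlgClosed Ω := IsAlgClosure.isAlgClosed K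
  have halg : Algebra.IsAlgebraic K Ω := IsAlgClosure.isAlgebraic
  have hnor : Normal K Ω := IsAlgClosure.normal K Ω
  have huniq : ∀ h h' : H, (∀ φ : M →ₐ[K] Ω, h • e φ = h' • e φ) → h = h' := by
    intro h h' hh
    have h1 : h'⁻¹ * h = 1 := hfaith _ fun x => by
      obtain ⟨φ, rfl⟩ := e.surjective x
      rw [mul_smul, hh φ, inv_smul_smul]
    rw [← mul_one h', ← h1, mul_inv_cancel_left]
  choose ρ hρ using act_exists e he
  have hlift : ∀ (τ : N ≃ₐ[K] N) (x : N), (τ.liftNormal Ω) (x : Ω) = τ x := fun τ x =>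
    τ.liftNormal_commutes Ω x
  have hρ1 : ∀ σ σ' : Ω ≃ₐ[K] Ω, (∀ x ∈ N, σ x = σ' x) → ρ σ = ρ σ' := by
    intro σ σ' h
    apply huniq
    intro φ
    rw [← hρ, ← hρ, of_eq_on h φ]
  have hρ2 : ∀ σ σ' : Ω ≃ₐ[K] Ω, ρ σ = ρ σ' → (∀ x ∈ N, σ x = σ' x) := by
    intro σ σ' h
    apply eq_on
    intro φ
    apply e.injective
    rw [hρ, hρ, h]
  have hmul : ∀ σ σ' : Ω ≃ₐ[K] Ω, ρ (σ * σ') = ρ σ * ρ σ' := by
    intro σ σ'
    apply huniq
    intro φ
    rw [← hρ, mul_smul, ← hρ, ← hρ]
    rfl
  let E0 : (N ≃ₐ[K] N) →* H := MonoidHom.mk' (fun τ => ρ (τ.liftNormal Ω)) (by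
    intro τ τ'
    rw [← hmul]
    apply hρ1
    intro x hx
    have h1 := hlift (τ * τ') ⟨x, hx⟩
    have h2 := hlift τ' ⟨x, hx⟩
    have h3 := hlift τ (τ' ⟨x, hx⟩)
    change (τ * τ').liftNormal Ω x = τ.liftNormal Ω (τ'.liftNormal Ω x)
    rw [h1, h2, h3]
    rfl)
  have hbij : Function.Bijective E0 := by
    constructor
    · intro τ τ' h
      have h1 := hρ2 _ _ h
      ext x
      rw [← hlift, ← hlift]
      exact h1 _ x.2
    · intro h
      obtain ⟨σ, hσ⟩ := act_surj e he h
      refine ⟨σ.restrictNormal N, ?_⟩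
      have h1 : ρ σ = h := huniq _ _ fun φ => by rw [← hρ, hσ]
      rw [← h1]
      apply hρ1
      intro x hx
      have h2 := hlift (σ.restrictNormal N) ⟨x, hx⟩
      rw [h2]
      exact σ.restrictNormal_commutes N ⟨x, hx⟩
  refine ⟨MulEquiv.ofBijective E0 hbij, ?_⟩
  intro σ τ h φ
  rw [hρ]
  congr 1
  apply hρ1
  intro x hx
  rw [h ⟨x, hx⟩]
  exact (hlift τ ⟨x, hx⟩).symm

end

lemma faithful {H X : Type} [Group H] [MulAction H X] (x₀ : X) (U : Subgroup H)
    (hV : MulAction.stabilizer H x₀ ≤ U) (hU : U.normalCore = ⊥) (h : H)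
    (hh : ∀ x : X, h • x = x) : h = 1 := by
  have h1 : h ∈ U.normalCore := by
    intro b
    apply hV
    rw [MulAction.mem_stabilizer_iff, mul_smul, mul_smul, hh, smul_inv_smul]
  rw [hU] at h1
  exact h1

lemma natcard_comap {G H : Type} [Group G] [Group H] (E : G ≃* H) (V : Subgroup H) :
    Nat.card (V.comap E.toMonoidHom) = Nat.card V :=
  Nat.card_congr (E.subgroupMap (V.comap E.toMonoidHom) |>.trans (MulEquiv.subgroupCongr (by
      ext x
      simp only [Subgroup.mem_map, Subgroup.mem_comap]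
      constructor
      · rintro ⟨y, hy, rfl⟩; exact hy
      · intro hx; exact ⟨E.symm x, by simpa using hx, by simp⟩))).toEquiv

section
variable {K Ω : Type} [Field K] [NumberField K] [Field Ω] [Algebra K Ω] [IsAlgClosure K Ω]

lemma main {H X : Type} [Group H] [Finite H] [MulAction H X] [MulAction.IsPretransitive H X]
    (x₀ : X) (U : Subgroup H) (hV : MulAction.stabilizer H x₀ ≤ U) (hU : U.normalCore = ⊥)
    (M : IntermediateField K Ω) (hM : M ∈ Pool.Agent.U737.MN.Gal K Ω H X) :
    ∃ N F : IntermediateField K Ω, M ≤ N ∧ Normal K N ∧ FiniteDimensional K N ∧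
      Nonempty ((N ≃ₐ[K] N) ≃* H) ∧ FiniteDimensional K F ∧ Module.finrank K F = U.index ∧
      F ≤ M ∧ dsc F ^ ((MulAction.stabilizer H x₀).relIndex U) ≤ dsc M ∧
      ∀ N' : IntermediateField K Ω, Normal K N' → F ≤ N' → N' ≤ N → N' = N := by
  obtain ⟨hfd, e, he⟩ := hM
  have hiso := group_iso e he (faithful x₀ U hV hU)
  have hac : IsAlgClosed Ω := IsAlgClosure.isAlgClosed K
  have halg : Algebra.IsAlgebraic K Ω := IsAlgClosure.isAlgebraic
  have hnor : Normal K Ω := IsAlgClosure.normal K Ω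
  have hMN : M ≤ IntermediateField.normalClosure K M Ω := IntermediateField.le_normalClosure M
  set N := IntermediateField.normalClosure K M Ω with hN
  obtain ⟨E, hE⟩ := hiso
  have hNn : Normal K N := inferInstance
  have hNf : FiniteDimensional K N := inferInstance
  have hNg : IsGalois K N := ⟨⟩
  set V := MulAction.stabilizer H x₀ with hVdef
  obtain ⟨g, hg⟩ := MulAction.exists_smul_eq H (e M.val) x₀
  let E1 : (N ≃ₐ[K] N) ≃* H := E.trans (MulAut.conj g)
  have hE1 : ∀ τ, E1 τ • x₀ = g • E τ • e M.val := by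
    intro τ
    change (g * E τ * g⁻¹) • x₀ = _
    rw [← hg, mul_smul, inv_smul_smul, mul_smul]
  set M' : IntermediateField K N := IntermediateField.restrict hMN with hM'
  have hfix : M'.fixingSubgroup = V.comap E1.toMonoidHom := by
    ext τ
    rw [IntermediateField.mem_fixingSubgroup_iff, Subgroup.mem_comap]
    change _ ↔ E1 τ • x₀ = x₀
    have hl : ∀ x : N, (τ.liftNormal Ω) (x : Ω) = τ x := fun x => τ.liftNormal_commutes Ω x
    have h1 := hE (τ.liftNormal Ω) τ hl M.val
    rw [hE1, ← h1]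
    constructor
    · intro h
      have h2 : (τ.liftNormal Ω).toAlgHom.comp M.val = M.val := by
        ext x
        have h3 : (⟨x, hMN x.2⟩ : N) ∈ M' :=
          (IntermediateField.mem_restrict hMN _).2 x.2
        have h4 := h _ h3
        have h5 := hl ⟨x, hMN x.2⟩
        rw [h4] at h5
        exact h5
      rw [h2, hg]
    · intro h x hx
      rw [← hg] at h
      have h2 := e.injective (MulAction.injective g h)
      have h3 : (x : Ω) ∈ M := (IntermediateField.mem_restrict hMN x).1 hx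
      have h4 := DFunLike.congr_fun h2 ⟨x, h3⟩
      have h5 := hl x
      apply Subtype.ext
      rw [← h5]
      exact h4
  set F0 : IntermediateField K N := IntermediateField.fixedField (U.comap E1.toMonoidHom) with hF0
  have hF0M : F0 ≤ M' := by
    rw [← IsGalois.fixedField_fixingSubgroup M', IntermediateField.le_iff_le, hF0,
      IntermediateField.fixingSubgroup_fixedField, hfix]
    exact Subgroup.comap_mono hV
  have c1 : Module.finrank M' N = Nat.card V := by
    rw [← IsGalois.card_fixingSubgroup_eq_finrank, hfix, natcard_comap]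
  have c2 : Module.finrank F0 N = Nat.card U := by
    rw [← IsGalois.card_fixingSubgroup_eq_finrank, hF0, IntermediateField.fixingSubgroup_fixedField,
      natcard_comap]
  have c3 : Module.finrank K N = Nat.card H := by
    rw [← IsGalois.card_aut_eq_finrank K N, Nat.card_congr E1.toEquiv]
  have c4 : Module.finrank K M' = V.index := by
    have h3 := Module.finrank_mul_finrank K M' N
    rw [c1, c3, ← Subgroup.index_mul_card V] at h3
    exact Nat.eq_of_mul_eq_mul_right Nat.card_pos h3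
  have c5 : Module.finrank K F0 = U.index := by
    have h3 := Module.finrank_mul_finrank K F0 N
    rw [c2, c3, ← Subgroup.index_mul_card U] at h3
    exact Nat.eq_of_mul_eq_mul_right Nat.card_pos h3
  have hFM : IntermediateField.lift F0 ≤ M := by
    have h1 : IntermediateField.lift M' = M := IntermediateField.lift_restrict hMN
    rw [← h1]
    intro x hx
    have h2 : x ∈ N := IntermediateField.lift_le _ hx
    exact (IntermediateField.mem_lift ⟨x, h2⟩).2 (hF0M ((IntermediateField.mem_lift ⟨x, h2⟩).1 hx))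
  have hfdF : FiniteDimensional K (IntermediateField.lift F0) :=
    (IntermediateField.liftAlgEquiv F0).toLinearEquiv.finiteDimensional
  have c6 : Module.finrank K (IntermediateField.lift F0) = U.index := by
    rw [← (IntermediateField.liftAlgEquiv F0).toLinearEquiv.finrank_eq, c5]
  have c7 : Module.finrank K M = V.index := by
    rw [(IntermediateField.restrictAlgEquiv hMN).toLinearEquiv.finrank_eq, c4]
  refine ⟨N, IntermediateField.lift F0, hMN, hNn, hNf, ⟨E1⟩, hfdF, c6, hFM, ?_, ?_⟩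
  · have hnM : NumberField M := nf M
    have hnF : NumberField (IntermediateField.lift F0) := nf _
    set F1 : IntermediateField K M := IntermediateField.restrict hFM with hF1
    have hnF1 : NumberField F1 := NumberField.of_module_finite K F1
    rw [dsc_eq, dsc_eq]
    have e1 : discr (IntermediateField.lift F0) = discr F1 :=
      discr_eq_discr_of_ringEquiv _ (IntermediateField.restrictAlgEquiv hFM).toRingEquiv
    rw [e1]
    have c8 : Module.finrank K F1 = U.index := by
      rw [← c6, (IntermediateField.restrictAlgEquiv hFM).toLinearEquiv.finrank_eq]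
    have c9 : Module.finrank F1 M = V.relIndex U := by
      have h3 := Module.finrank_mul_finrank K F1 M
      rw [c8, c7, ← Subgroup.relIndex_mul_index hV, mul_comm] at h3
      exact Nat.eq_of_mul_eq_mul_right (Nat.pos_of_ne_zero Subgroup.index_ne_zero_of_finite) h3
    have h3 := natAbs_discr_eq_absNorm_differentIdeal_mul_natAbs_discr_pow F1 (𝓞 F1) M (𝓞 M)
    rw [c9] at h3
    have h4 : (discr M).natAbs ≠ 0 := Nat.one_le_iff_ne_zero.1 (one_le M)
    have h5 : (discr F1).natAbs ^ V.relIndex U ∣ (discr M).natAbs := ⟨_, by rw [h3, mul_comm]⟩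
    exact_mod_cast Nat.le_of_dvd (Nat.pos_of_ne_zero h4) h5
  · intro N2 hN2 hFN2 hN2N
    set N' : IntermediateField K N := IntermediateField.restrict hN2N with hN'
    have hnor : Normal K N' := Normal.of_algEquiv (IntermediateField.restrictAlgEquiv hN2N)
    have hgal : IsGalois K N' := ⟨⟩
    have hle : F0 ≤ N' := by
      intro x hx
      rw [hN', IntermediateField.mem_restrict]
      exact hFN2 ((IntermediateField.mem_lift x).2 hx)
    have h6 : N'.fixingSubgroup ≤ U.comap E1.toMonoidHom := by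
      have := IntermediateField.fixingSubgroup_le hle
      rwa [hF0, IntermediateField.fixingSubgroup_fixedField] at this
    have h7 : N'.fixingSubgroup.map E1.toMonoidHom ≤ U.normalCore := by
      have hn : (N'.fixingSubgroup.map E1.toMonoidHom).Normal :=
        Subgroup.Normal.map inferInstance _ E1.surjective
      rw [Subgroup.normal_le_normalCore, Subgroup.map_le_iff_le_comap]
      exact h6
    rw [hU, le_bot_iff, Subgroup.map_eq_bot_iff_of_injective _ E1.injective] at h7
    have h8 : N' = ⊤ := by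
      rw [← IsGalois.fixedField_fixingSubgroup N', h7, IntermediateField.fixedField_bot]
    apply le_antisymm hN2N
    intro x hx
    have h9 : (⟨x, hx⟩ : N) ∈ N' := by rw [h8]; trivial
    exact (IntermediateField.mem_restrict hN2N ⟨x, hx⟩).1 h9

omit [NumberField K] [IsAlgClosure K Ω] in
lemma fiber_bound {H : Type} [Group H] [Finite H] (N0 : IntermediateField K Ω)
    [FiniteDimensional K N0] [IsGalois K N0] (E : (N0 ≃ₐ[K] N0) ≃* H)
    (s : Finset (IntermediateField K Ω)) (hs : ∀ M ∈ s, M ≤ N0) :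
    s.card ≤ Nat.card (Subgroup H) := by
  let f : {x // x ∈ s} → Subgroup H := fun x =>
    E.mapSubgroup (IntermediateField.restrict (hs x.1 x.2)).fixingSubgroup
  have hf : Function.Injective f := by
    intro x y hxy
    have h1 := E.mapSubgroup.injective hxy
    have h2 : IntermediateField.restrict (hs x.1 x.2) = IntermediateField.restrict (hs y.1 y.2) := by
      rw [← IsGalois.fixedField_fixingSubgroup (IntermediateField.restrict (hs x.1 x.2)), h1,
        IsGalois.fixedField_fixingSubgroup]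
    apply Subtype.ext
    rw [← IntermediateField.lift_restrict (hs x.1 x.2), h2, IntermediateField.lift_restrict]
  have h3 := Nat.card_le_card_of_injective f hf
  rwa [Nat.card_eq_fintype_card, Fintype.card_coe] at h3

end

theorem t_FewGal : (Pool.Agent.TH444.ML.HermiteRel → Pool.Agent.U737.MN.FewGal) := by
  intro h K Ω _ _ _ _ _ H X _ _ _ _ _ x₀ U hV hU hcU
  obtain ⟨C, hC⟩ := h K Ω U.index
  have key := fun M : Pool.Agent.U737.MN.Gal K Ω H X => main x₀ U hV hU M.1 M.2
  choose N F hMN hNn hNf hNE hfd hfr hFM hdsc hmin using key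
  have hsame : ∀ M1 M2, F M1 = F M2 → N M1 = N M2 := by
    intro M1 M2 h12
    have g1 := hNn M1
    have g2 := hNn M2
    have hn : Normal K (N M1 ⊓ N M2 : IntermediateField K Ω) := inferInstance
    have e1 := hmin M1 (N M1 ⊓ N M2) hn
      (le_inf ((hFM M1).trans (hMN M1)) (by rw [h12]; exact (hFM M2).trans (hMN M2))) inf_le_left
    have e2 := hmin M2 (N M1 ⊓ N M2) hn
      (le_inf (by rw [← h12]; exact (hFM M1).trans (hMN M1)) ((hFM M2).trans (hMN M2))) inf_le_right
    exact e1.symm.trans e2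
  have hnF : ∀ M, NumberField (F M) := fun M => by have := hfd M; exact nf _
  have hnM : ∀ M : Pool.Agent.U737.MN.Gal K Ω H X, NumberField M.1 := fun M => by
    have : FiniteDimensional K M.1 := M.2.1
    exact nf _
  set g : Pool.Agent.U737.MN.Gal K Ω H X → ℕ := fun M => (discr (F M)).natAbs with hg
  have hg1 : ∀ M, 1 ≤ g M := fun M => one_le (F M)
  set B : ℕ := Nat.card (Subgroup H) with hB
  have hbound : ∀ M : Pool.Agent.U737.MN.Gal K Ω H X, (dsc M.1) ^ (-(1 / 4) : ℝ) ≤
      (1 : ℝ) / (g M : ℝ) ^ (2 * U.index + 2) := by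
    intro M
    have h1 : (1 : ℝ) ≤ g M := by exact_mod_cast hg1 M
    have h2 : (g M : ℝ) ^ (8 * (U.index + 1)) ≤ dsc M.1 := by
      refine le_trans ?_ (hdsc M)
      rw [dsc_eq (F M)]
      exact pow_le_pow_right₀ h1 hcU
    have h3 : ((g M : ℝ) ^ (8 * (U.index + 1))) ^ (-(1 / 4) : ℝ) =
        (1 : ℝ) / (g M : ℝ) ^ (2 * U.index + 2) := by
      have h4 : (1 : ℝ) / (g M : ℝ) ^ (2 * U.index + 2) =
          (g M : ℝ) ^ (-((2 * U.index + 2 : ℕ) : ℝ)) := by
        rw [Real.rpow_neg (by positivity), Real.rpow_natCast, one_div]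
      rw [h4, ← Real.rpow_natCast, ← Real.rpow_mul (by positivity)]
      congr 1
      push_cast
      ring
    rw [← h3]
    exact Real.rpow_le_rpow_of_nonpos (by positivity) h2 (by norm_num)
  classical
  have hC0 : ∀ m : ℕ, 1 ≤ m → ∀ s : Finset (Pool.Agent.U737.MN.Gal K Ω H X), (∀ M ∈ s, g M = m) →
      (s.card : ℝ) ≤ B * (C * (m : ℝ) ^ (2 * U.index)) := by
    intro m hm s hs
    obtain ⟨hfin, hle⟩ := hC m (by exact_mod_cast hm)
    have h1 : (s.image F).card ≤ Set.ncard {F : IntermediateField K Ω |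
        FiniteDimensional K F ∧ Module.finrank K F = U.index ∧ dsc F ≤ (m : ℝ)} := by
      rw [← Set.ncard_coe_finset]
      refine Set.ncard_le_ncard ?_ hfin
      intro x hx
      rw [Finset.mem_coe, Finset.mem_image] at hx
      obtain ⟨M, hM, rfl⟩ := hx
      refine ⟨hfd M, hfr M, ?_⟩
      rw [dsc_eq (F M), ← hs M hM]
    have h2 : s.card ≤ B * (s.image F).card := by
      refine Finset.card_le_mul_card_image s B ?_
      intro a ha
      obtain ⟨M0, hM0, rfl⟩ := Finset.mem_image.1 ha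
      obtain ⟨E⟩ := hNE M0
      have i1 := hNf M0
      have i2 := hNn M0
      have i3 : IsGalois K (N M0) := ⟨⟩
      have h3 := fiber_bound (N M0) E
        ((s.filter (fun x => F x = F M0)).map ⟨Subtype.val, Subtype.val_injective⟩) (by
          intro M hM
          rw [Finset.mem_map] at hM
          obtain ⟨M1, hM1, rfl⟩ := hM
          rw [Finset.mem_filter] at hM1
          change M1.1 ≤ N M0
          rw [← hsame M1 M0 hM1.2]
          exact hMN M1)
      rwa [Finset.card_map] at h3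
    have h4 : (s.card : ℝ) ≤ B * ((s.image F).card : ℝ) := by exact_mod_cast h2
    refine h4.trans (mul_le_mul_of_nonneg_left ?_ (by positivity))
    exact le_trans (by exact_mod_cast h1) hle
  have hC' : 0 ≤ |C| := abs_nonneg C
  have hsum2 : Summable (fun m : ℕ => (1 : ℝ) / (m : ℝ) ^ 2) :=
    Real.summable_one_div_nat_pow.2 (by norm_num)
  refine Summable.of_nonneg_of_le (fun M => ?_) hbound ?_
  · exact Real.rpow_nonneg (by rw [dsc_eq]; positivity) _
  refine summable_of_sum_le (c := (B * |C|) * ∑' m : ℕ, (1 : ℝ) / (m : ℝ) ^ 2)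
    (fun M => by positivity) ?_
  intro s
  calc ∑ M ∈ s, (1 : ℝ) / (g M : ℝ) ^ (2 * U.index + 2)
      = ∑ m ∈ s.image g, ∑ M ∈ s with g M = m, (1 : ℝ) / (g M : ℝ) ^ (2 * U.index + 2) :=
        (Finset.sum_fiberwise_of_maps_to (fun M hM => Finset.mem_image_of_mem g hM) _).symm
    _ ≤ ∑ m ∈ s.image g, (B * |C|) * ((1 : ℝ) / (m : ℝ) ^ 2) := by
        refine Finset.sum_le_sum fun m hm => ?_
        obtain ⟨M0, hM0, hM0'⟩ := Finset.mem_image.1 hm
        have hm1 : 1 ≤ m := hM0' ▸ hg1 M0
        have hmpos : (0 : ℝ) < m := by exact_mod_cast hm1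
        have e1 : ∑ M ∈ s with g M = m, (1 : ℝ) / (g M : ℝ) ^ (2 * U.index + 2) =
            ((s.filter (fun M => g M = m)).card : ℝ) * (1 / (m : ℝ) ^ (2 * U.index + 2)) := by
          rw [Finset.sum_congr rfl (g := fun _ => (1 : ℝ) / (m : ℝ) ^ (2 * U.index + 2)),
            Finset.sum_const, nsmul_eq_mul]
          intro M hM
          rw [(Finset.mem_filter.1 hM).2]
        rw [e1]
        calc ((s.filter (fun M => g M = m)).card : ℝ) * (1 / (m : ℝ) ^ (2 * U.index + 2))
            ≤ (B * (|C| * (m : ℝ) ^ (2 * U.index))) * (1 / (m : ℝ) ^ (2 * U.index + 2)) := by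
              refine mul_le_mul_of_nonneg_right ?_ (by positivity)
              refine (hC0 m hm1 _ fun M hM => (Finset.mem_filter.1 hM).2).trans ?_
              refine mul_le_mul_of_nonneg_left ?_ (by positivity)
              exact mul_le_mul_of_nonneg_right (le_abs_self C) (by positivity)
          _ = (B * |C|) * ((1 : ℝ) / (m : ℝ) ^ 2) := by
              rw [pow_add]
              field_simp
    _ = (B * |C|) * ∑ m ∈ s.image g, (1 : ℝ) / (m : ℝ) ^ 2 := by rw [Finset.mul_sum]
    _ ≤ (B * |C|) * ∑' m : ℕ, (1 : ℝ) / (m : ℝ) ^ 2 := by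
        refine mul_le_mul_of_nonneg_left ?_ (by positivity)
        exact hsum2.sum_le_tsum _ (fun m _ => by positivity)

end Pool.Agent.U875.MN
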